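import Pool.Agent.H31.MP.Basic

/-!
Row SA of mtp_modules (helper20): the mean value of the singular factor.
-/

set_option autoImplicit false

open Finset Real ArithmeticFunction
open scoped Nat

namespace Pool.Agent.H20.MP

open Pool.Agent.H31.MP

/-- a residue class in an interval -/
theorem sa_interval (a m q : ℕ) (hq : 0 < q) (S : Finset ℕ) (hS : S ⊆ Ico a (a + m))
    (hc : ∀ e ∈ S, ∀ e' ∈ S, e ≤ e' → q ∣ e' - e) : (S.card : ℝ) ≤ (m : ℝ) / q + 1 := by
  rcases S.eq_empty_or_nonempty with h0 | h0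
  · rw [h0, card_empty, Nat.cast_zero]
    positivity
  set s := S.min' h0 with hs
  have hsS : s ∈ S := S.min'_mem h0
  have hle : ∀ e ∈ S, s ≤ e := fun e he => S.min'_le e he
  have hcard : S.card ≤ (range (m / q + 1)).card := by
    refine card_le_card_of_injOn (fun e => (e - s) / q) ?_ ?_
    · intro e he
      have he' : e ∈ S := he
      have h1 := mem_Ico.1 (hS he')
      have h2 := mem_Ico.1 (hS hsS)
      have h3 : (e - s) / q ≤ m / q := Nat.div_le_div_right (by omega)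
      have h4 : (e - s) / q ∈ range (m / q + 1) := mem_range.2 (by omega)
      exact h4
    · intro e he e' he' hee
      have h1 := hc s hsS e he (hle e he)
      have h2 := hc s hsS e' he' (hle e' he')
      have h3 : (e - s) / q = (e' - s) / q := hee
      have h4 := Nat.div_mul_cancel h1
      have h5 := Nat.div_mul_cancel h2
      rw [h3] at h4
      have h6 := hle e he
      have h7 := hle e' he'
      omega
  rw [card_range] at hcard
  have h8 : (S.card : ℝ) ≤ ((m / q + 1 : ℕ) : ℝ) := by exact_mod_cast hcard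
  rw [Nat.cast_add, Nat.cast_one] at h8
  have h9 : ((m / q : ℕ) : ℝ) ≤ (m : ℝ) / q := Nat.cast_div_le
  linarith

/-- the sum of `1 / (n (n - 1))` -/
theorem sa_tele (y N : ℕ) (hy : 1 ≤ y) :
    ∑ n ∈ Ioc y N, 1 / ((n : ℝ) * (n - 1)) ≤ 1 / y := by
  have hy0 : (0 : ℝ) < y := by exact_mod_cast hy
  rcases le_total N y with h | h
  · rw [Ioc_eq_empty (by omega), sum_empty]
    positivity
  have h1 : ∀ j : ℕ, ∑ n ∈ Ioc y (y + j), 1 / ((n : ℝ) * (n - 1)) = 1 / y - 1 / (y + j : ℕ) := by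
    intro j
    induction j with
    | zero => simp
    | succ j ih =>
      have h2 : Ioc y (y + (j + 1)) = insert (y + (j + 1)) (Ioc y (y + j)) := by
        ext n
        rw [mem_insert, mem_Ioc, mem_Ioc]
        omega
      rw [h2, sum_insert (by rw [mem_Ioc]; omega), ih]
      push_cast
      have h3 : (y : ℝ) + j ≠ 0 := by positivity
      have h4 : (y : ℝ) + (j + 1) ≠ 0 := by positivity
      have h5 : (y : ℝ) + (j + 1) - 1 = y + j := by ring
      rw [h5]
      field_simp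
      ring
  obtain ⟨j, rfl⟩ := Nat.exists_eq_add_of_le h
  rw [h1 j]
  have : (0 : ℝ) ≤ 1 / (y + j : ℕ) := by positivity
  linarith

/-- the count for one set of primes -/
theorem sa_count {K : ℕ} (y₀ a m : ℕ) (h : Fin K → ℕ) (T : Finset ℕ)
    (hT : ∀ p ∈ T, p.Prime ∧ y₀ < p) :
    ((((Ico a (a + m)).filter fun e => (1 + e).Coprime (primorial y₀)).filter fun e : ℕ =>
      ∀ p ∈ T, ∃ i, (p : ℤ) ∣ (e : ℤ) - h i).card : ℝ) ≤
      (primorial y₀).totient * (K : ℝ) ^ T.card *
        ((m : ℝ) / (primorial y₀ * ∏ p ∈ T, p : ℕ) + 1) := by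
  classical
  set W := primorial y₀ with hW
  have hW0 : 0 < W := primorial_pos y₀
  set R : Finset ℕ := (range W).filter fun r => (1 + r).Coprime W with hR
  have hRc : R.card = W.totient := by
    rw [← Nat.filter_coprime_Ico_eq_totient W 1]
    refine card_bij (fun r _ => 1 + r) ?_ ?_ ?_
    · intro r hr
      rw [hR, mem_filter, mem_range] at hr
      rw [mem_filter, mem_Ico]
      exact ⟨⟨by omega, by omega⟩, Nat.Coprime.symm hr.2⟩
    · intro r _ r' _ he
      omega
    · intro x hx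
      rw [mem_filter, mem_Ico] at hx
      refine ⟨x - 1, ?_, by omega⟩
      rw [hR, mem_filter, mem_range]
      refine ⟨by omega, ?_⟩
      have : 1 + (x - 1) = x := by omega
      rw [this]
      exact hx.2.symm
  set D := ∏ p ∈ T, p with hD
  have hD0 : 0 < D := prod_pos fun p hp => (hT p hp).1.pos
  have hcop : W.Coprime D := by
    rw [hD]
    refine Nat.Coprime.prod_right fun p hp => ?_
    have hpp := hT p hp
    rw [Nat.coprime_comm, Nat.Prime.coprime_iff_not_dvd hpp.1, hW]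
    intro hdv
    have h1 : p ∈ (primorial y₀).primeFactors :=
      Nat.mem_primeFactors.2 ⟨hpp.1, hdv, (primorial_pos y₀).ne'⟩
    rw [primeFactors_primorial, Nat.mem_primesLE] at h1
    omega
  let cell : ℕ → (T → Fin K) → Finset ℕ := fun r g =>
    (Ico a (a + m)).filter fun e : ℕ => e % W = r ∧ ∀ p : T, ((p : ℕ) : ℤ) ∣ (e : ℤ) - h (g p)
  have hcell : ∀ r g, ((cell r g).card : ℝ) ≤ (m : ℝ) / (W * D : ℕ) + 1 := by
    intro r g
    refine sa_interval a m (W * D) (Nat.mul_pos hW0 hD0) _ (filter_subset _ _) ?_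
    intro e he e' he' hle
    have h1 := (mem_filter.1 he).2
    have h2 := (mem_filter.1 he').2
    refine Nat.Coprime.mul_dvd_of_dvd_of_dvd hcop ?_ ?_
    · have h3 : e % W = e' % W := h1.1.trans h2.1.symm
      exact (Nat.modEq_iff_dvd' hle).1 h3
    · rw [hD]
      refine Finset.prod_primes_dvd _ (fun p hp => (hT p hp).1.prime) fun p hp => ?_
      have h3 := h1.2 ⟨p, hp⟩
      have h4 := h2.2 ⟨p, hp⟩
      have h5 : (p : ℤ) ∣ ((e' - e : ℕ) : ℤ) := by
        have h6 := dvd_sub h4 h3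
        rw [Nat.cast_sub hle]
        have h7 : (e' : ℤ) - e = (e' : ℤ) - h (g ⟨p, hp⟩) - ((e : ℤ) - h (g ⟨p, hp⟩)) := by ring
        rw [h7]
        exact h6
      exact Int.natCast_dvd_natCast.1 h5
  have hsub : (((Ico a (a + m)).filter fun e => (1 + e).Coprime W).filter fun e : ℕ =>
      ∀ p ∈ T, ∃ i, (p : ℤ) ∣ (e : ℤ) - h i) ⊆
      R.biUnion fun r => (univ : Finset (T → Fin K)).biUnion fun g => cell r g := by
    intro e he
    rw [mem_filter, mem_filter] at he
    obtain ⟨⟨he1, he2⟩, he3⟩ := he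
    rw [mem_biUnion]
    refine ⟨e % W, ?_, ?_⟩
    · rw [hR, mem_filter, mem_range]
      refine ⟨Nat.mod_lt _ hW0, ?_⟩
      have h1 : (1 + e % W) ≡ (1 + e) [MOD W] := Nat.ModEq.add_left 1 (Nat.mod_modEq e W)
      have h2 := h1.gcd_eq
      rw [Nat.Coprime, h2]
      exact he2
    · rw [mem_biUnion]
      refine ⟨fun p => (he3 p p.2).choose, mem_univ _, ?_⟩
      refine mem_filter.2 ⟨he1, rfl, fun p => (he3 p p.2).choose_spec⟩
  have h1 := card_le_card hsub
  have h2 : ((R.biUnion fun r => (univ : Finset (T → Fin K)).biUnion fun g => cell r g).card : ℝ) ≤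
      ∑ r ∈ R, ∑ g : T → Fin K, ((m : ℝ) / (W * D : ℕ) + 1) := by
    calc ((R.biUnion fun r => (univ : Finset (T → Fin K)).biUnion fun g => cell r g).card : ℝ)
        ≤ ((∑ r ∈ R, ((univ : Finset (T → Fin K)).biUnion fun g => cell r g).card : ℕ) : ℝ) := by
          exact_mod_cast card_biUnion_le
      _ = ∑ r ∈ R, ((((univ : Finset (T → Fin K)).biUnion fun g => cell r g).card : ℕ) : ℝ) := by
          push_cast
          rfl
      _ ≤ ∑ r ∈ R, ∑ g : T → Fin K, ((m : ℝ) / (W * D : ℕ) + 1) := by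
          refine sum_le_sum fun r _ => ?_
          calc ((((univ : Finset (T → Fin K)).biUnion fun g => cell r g).card : ℕ) : ℝ)
              ≤ ((∑ g : T → Fin K, (cell r g).card : ℕ) : ℝ) := by
                exact_mod_cast card_biUnion_le
            _ = ∑ g : T → Fin K, ((cell r g).card : ℝ) := by
                push_cast
                rfl
            _ ≤ _ := sum_le_sum fun g _ => hcell r g
  rw [sum_const, sum_const, hRc, card_univ, Fintype.card_fun, Fintype.card_fin,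
    Fintype.card_coe, nsmul_eq_mul, nsmul_eq_mul] at h2
  have h3 : ((((Ico a (a + m)).filter fun e => (1 + e).Coprime W).filter fun e : ℕ =>
      ∀ p ∈ T, ∃ i, (p : ℤ) ∣ (e : ℤ) - h i).card : ℝ) ≤
      ((R.biUnion fun r => (univ : Finset (T → Fin K)).biUnion fun g => cell r g).card : ℝ) := by
    exact_mod_cast h1
  refine h3.trans (h2.trans (le_of_eq ?_))
  push_cast
  ring

/-- the product over the primes -/
theorem sa_prod (K y₀ : ℕ) (hy : 1 ≤ y₀) (P : Finset ℕ) (hP : ∀ p ∈ P, p.Prime ∧ y₀ < p) :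
    ∏ p ∈ P, (1 + (K : ℝ) / ((p : ℝ) * (p - 1))) ≤ Real.exp ((K : ℝ) / y₀) := by
  have h1 : ∏ p ∈ P, (1 + (K : ℝ) / ((p : ℝ) * (p - 1))) ≤
      ∏ p ∈ P, Real.exp ((K : ℝ) / ((p : ℝ) * (p - 1))) := by
    refine prod_le_prod (fun p hp => ?_) fun p hp => ?_
    · have h2 : (1 : ℝ) < p := by exact_mod_cast (hP p hp).1.one_lt
      have h3 : 0 < (p : ℝ) - 1 := by linarith
      positivity
    · have := Real.add_one_le_exp ((K : ℝ) / ((p : ℝ) * (p - 1)))
      linarith
  refine h1.trans ?_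
  rw [← Real.exp_sum]
  refine Real.exp_le_exp.2 ?_
  have h2 : ∑ p ∈ P, (K : ℝ) / ((p : ℝ) * (p - 1)) =
      K * ∑ p ∈ P, 1 / ((p : ℝ) * (p - 1)) := by
    rw [mul_sum]
    exact sum_congr rfl fun p _ => by ring
  rw [h2]
  have h3 : ∑ p ∈ P, 1 / ((p : ℝ) * (p - 1)) ≤
      ∑ p ∈ Ioc y₀ (P.sup id), 1 / ((p : ℝ) * (p - 1)) := by
    refine sum_le_sum_of_subset_of_nonneg (fun p hp => ?_) fun p hp _ => ?_
    · rw [mem_Ioc]
      exact ⟨(hP p hp).2, le_sup (f := id) hp⟩
    · have h4 := (mem_Ioc.1 hp).1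
      have h5 : (1 : ℝ) ≤ p := by
        have : 1 ≤ p := by omega
        exact_mod_cast this
      have h6 : 0 ≤ (p : ℝ) - 1 := by linarith
      positivity
  calc (K : ℝ) * ∑ p ∈ P, 1 / ((p : ℝ) * (p - 1)) ≤ K * (1 / y₀) :=
        mul_le_mul_of_nonneg_left (h3.trans (sa_tele _ _ hy)) (Nat.cast_nonneg _)
    _ = (K : ℝ) / y₀ := by ring

/-- the totient of a product of different primes -/
theorem sa_tot (T : Finset ℕ) (hT : ∀ p ∈ T, p.Prime) :
    (∏ p ∈ T, p).totient = ∏ p ∈ T, (p - 1) := by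
  classical
  induction T using Finset.induction_on with
  | empty => simp
  | insert q T hq ih =>
    have h1 : ∀ p ∈ T, p.Prime := fun p hp => hT p (mem_insert_of_mem hp)
    have h2 : q.Prime := hT q (mem_insert_self q T)
    rw [prod_insert hq, prod_insert hq, Nat.totient_mul, ih h1, Nat.totient_prime h2]
    refine Nat.Coprime.prod_right fun p hp => ?_
    rw [Nat.coprime_primes h2 (h1 p hp)]
    rintro rfl
    exact hq hp

theorem sa_log (B : ℕ) (c : ℝ) : ∃ L₀ : ℝ, ∀ L : ℝ, L₀ ≤ L →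
    c * Real.log (20 * L) ^ B ≤ L := by
  have h := (isLittleO_pow_log_id_atTop (n := B)).bound
    (show 0 < 1 / (20 * (|c| + 1)) by positivity)
  obtain ⟨X₁, hX₁⟩ := Filter.eventually_atTop.1 h
  refine ⟨max X₁ 1, fun L hL => ?_⟩
  have hL1 : 1 ≤ L := (le_max_right _ _).trans hL
  have h1 := hX₁ (20 * L) (by linarith [(le_max_left X₁ 1).trans hL])
  have hl : 0 ≤ Real.log (20 * L) := Real.log_nonneg (by linarith)
  rw [id, Real.norm_of_nonneg (pow_nonneg hl _), Real.norm_of_nonneg (by linarith)] at h1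
  have h2 : (|c| + 1) * Real.log (20 * L) ^ B ≤ L := by
    calc (|c| + 1) * Real.log (20 * L) ^ B ≤
          (|c| + 1) * (1 / (20 * (|c| + 1)) * (20 * L)) :=
          mul_le_mul_of_nonneg_left h1 (by positivity)
      _ = L := by
          field_simp
  refine le_trans (mul_le_mul_of_nonneg_right ?_ (pow_nonneg hl _)) h2
  linarith [le_abs_self c]

theorem pf_SA (hDVK : T_DVK) : T_SA := by
  classical
  intro K η hη
  obtain ⟨C, B, hC, hCB⟩ := hDVK K
  -- the choice of y₁
  have hlog : 0 < Real.log (1 + η / 2) := Real.log_pos (by linarith)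
  obtain ⟨y₁, hy₁⟩ := exists_nat_gt ((K : ℝ) / Real.log (1 + η / 2))
  refine ⟨y₁ + 1, fun y₀ hy₀ t ht => ?_⟩
  have hy1 : 1 ≤ y₀ := by omega
  have hy0 : (0 : ℝ) < y₀ := by exact_mod_cast hy1
  have hexp : Real.exp ((K : ℝ) / y₀) ≤ 1 + η / 2 := by
    rw [← Real.le_log_iff_exp_le (by linarith)]
    rw [div_le_iff₀ hy0]
    rw [div_lt_iff₀ hlog] at hy₁
    have h1 : (y₁ : ℝ) ≤ y₀ := by
      have : y₁ ≤ y₀ := by omega
      exact_mod_cast this
    have h2 : (y₁ : ℝ) * Real.log (1 + η / 2) ≤ y₀ * Real.log (1 + η / 2) :=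
      mul_le_mul_of_nonneg_right h1 hlog.le
    linarith
  set W := primorial y₀ with hW
  have hW0 : 0 < W := primorial_pos y₀
  have hWr : (0 : ℝ) < W := by exact_mod_cast hW0
  obtain ⟨L₀, hL₀⟩ := sa_log B ((W : ℝ) * (C * ((K : ℝ) + 1) ^ B) * (2 / η) / t)
  refine ⟨Real.exp (max L₀ 1), fun X hX h a m hh ham htm => ?_⟩
  have hX0 : 0 < X := (Real.exp_pos _).trans_le hX
  have hLX : max L₀ 1 ≤ Real.log X := (Real.le_log_iff_exp_le hX0).2 hX
  set L := Real.log X with hL
  have hL1 : 1 ≤ L := (le_max_right _ _).trans hLX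
  have hL0 : L₀ ≤ L := (le_max_left _ _).trans hLX
  set N : ℕ := ⌊(20 * L) ^ (K + 1)⌋₊ with hN
  have h20 : 1 ≤ 20 * L := by linarith
  have hN2 : 2 ≤ N := by
    refine Nat.le_floor ?_
    have h1 : 20 * L ≤ (20 * L) ^ (K + 1) := le_self_pow₀ h20 (by omega)
    push_cast
    linarith
  have hNlog : Real.log N ≤ ((K : ℝ) + 1) * Real.log (20 * L) := by
    have h1 : (N : ℝ) ≤ (20 * L) ^ (K + 1) := Nat.floor_le (by positivity)
    have h2 : (0 : ℝ) < N := by
      have : 0 < N := by omega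
      exact_mod_cast this
    have h3 := Real.log_le_log h2 h1
    rw [Real.log_pow] at h3
    push_cast at h3
    exact h3
  set P : Finset ℕ := (Icc 1 N).filter fun p => p.Prime ∧ y₀ < p with hP
  have hPp : ∀ p ∈ P, p.Prime ∧ y₀ < p := fun p hp => (mem_filter.1 hp).2
  let w : Finset ℕ → ℝ := fun T => ∏ p ∈ T, 1 / ((p : ℝ) - 1)
  set 𝒯 : Finset (Finset ℕ) := P.powerset.filter fun T => ∏ p ∈ T, p ≤ N with h𝒯
  have hTp : ∀ T ∈ 𝒯, ∀ p ∈ T, p.Prime ∧ y₀ < p := fun T hT p hp =>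
    hPp p ((mem_powerset.1 (mem_filter.1 hT).1) hp)
  have hwpos : ∀ T : Finset ℕ, (∀ p ∈ T, p.Prime ∧ y₀ < p) → 0 ≤ w T := by
    intro T hT
    refine prod_nonneg fun p hp => ?_
    have : (1 : ℝ) < p := by exact_mod_cast (hT p hp).1.one_lt
    exact div_nonneg zero_le_one (by linarith)
  set E : Finset ℕ := (Ico a (a + m)).filter fun e => (1 + e).Coprime W with hE
  -- expansion of the singular factor
  have hexpand : ∀ e ∈ E, Rp y₀ e h ≤
      ∑ T ∈ 𝒯, if (∀ p ∈ T, ∃ i, (p : ℤ) ∣ (e : ℤ) - h i) then w T else 0 := by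
    intro e he
    set M := ∏ i, ((e : ℤ) - h i).natAbs with hM
    set S : Finset ℕ := M.primeFactors.filter fun p => y₀ < p with hS
    have hSp : ∀ p ∈ S, p.Prime ∧ y₀ < p := by
      intro p hp
      have h1 := mem_filter.1 hp
      exact ⟨Nat.prime_of_mem_primeFactors h1.1, h1.2⟩
    have h1 : Rp y₀ e h = ∑ T ∈ S.powerset, w T := by
      unfold Rp
      rw [← hM, ← hS]
      rw [← prod_one_add S (f := fun p : ℕ => 1 / ((p : ℝ) - 1))]
      refine prod_congr rfl fun p hp => ?_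
      have h2 : (1 : ℝ) < p := by exact_mod_cast (hSp p hp).1.one_lt
      have h3 : (p : ℝ) - 1 ≠ 0 := by linarith
      have h4 : (p : ℝ) ≠ 0 := by linarith
      have h5 : 1 - 1 / (p : ℝ) = ((p : ℝ) - 1) / p := by field_simp
      rw [h5, inv_div]
      field_simp
      ring
    rw [h1, ← sum_filter]
    refine sum_le_sum_of_subset_of_nonneg ?_ fun T hT _ => hwpos T (hTp T (mem_filter.1 hT).1)
    intro T hT
    rw [mem_powerset] at hT
    rw [mem_filter]
    have hdiv : ∀ p ∈ T, ∃ i, (p : ℤ) ∣ (e : ℤ) - h i := by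
      intro p hp
      have h2 := hT hp
      have h3 := (mem_filter.1 h2).1
      have h4 : p ∣ M := Nat.dvd_of_mem_primeFactors h3
      rw [hM] at h4
      obtain ⟨i, -, hi⟩ := ((hSp p h2).1.prime.dvd_finsetProd_iff _).1 h4
      exact ⟨i, Int.natCast_dvd.2 hi⟩
    refine ⟨?_, hdiv⟩
    rw [h𝒯, mem_filter, mem_powerset]
    have hMN : T.Nonempty → M ≤ N := by
      rintro ⟨p, hp⟩
      rw [hN]
      refine Nat.le_floor ?_
      rw [hM, Nat.cast_prod]
      have h5' : ∀ i, ((((e : ℤ) - h i).natAbs : ℕ) : ℝ) = |(e : ℝ) - h i| := by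
        intro i
        rw [Nat.cast_natAbs]
        push_cast
        rfl
      rw [prod_congr rfl fun i _ => h5' i]
      have h5 : ∏ i : Fin K, (|(e : ℝ) - h i|) ≤ ∏ _i : Fin K, (20 * L) := by
        refine prod_le_prod (fun i _ => abs_nonneg _) fun i _ => ?_
        have h6 : (e : ℝ) ≤ 20 * L := by
          have h7 := (mem_Ico.1 (mem_filter.1 he).1).2
          have h8 : (e : ℝ) ≤ ((a + m : ℕ) : ℝ) := by exact_mod_cast h7.le
          linarith
        have h7 : (0 : ℝ) ≤ e := Nat.cast_nonneg _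
        have h8 : (0 : ℝ) ≤ h i := Nat.cast_nonneg _
        have h9 := hh i
        rw [abs_le]
        constructor <;> linarith
      rw [prod_const, card_univ, Fintype.card_fin] at h5
      refine h5.trans ?_
      exact pow_le_pow_right₀ h20 (by omega)
    have hTM : M ≠ 0 → ∏ p ∈ T, p ∣ M := by
      intro hM0
      refine Finset.prod_primes_dvd _ (fun p hp => (hSp p (hT hp)).1.prime) fun p hp => ?_
      exact Nat.dvd_of_mem_primeFactors (mem_filter.1 (hT hp)).1
    constructor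
    · intro p hp
      rw [hP, mem_filter, mem_Icc]
      have h2 := hT hp
      have h3 := (mem_filter.1 h2).1
      have hM0 : M ≠ 0 := (Nat.mem_primeFactors.1 h3).2.2
      refine ⟨⟨(hSp p h2).1.one_lt.le, ?_⟩, hSp p h2⟩
      exact (Nat.le_of_dvd (Nat.pos_of_ne_zero hM0) (Nat.dvd_of_mem_primeFactors h3)).trans
        (hMN ⟨p, hp⟩)
    · rcases T.eq_empty_or_nonempty with h0 | h0
      · rw [h0, prod_empty]
        omega
      · obtain ⟨p, hp⟩ := h0
        have hM0 : M ≠ 0 := (Nat.mem_primeFactors.1 (mem_filter.1 (hT hp)).1).2.2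
        exact (Nat.le_of_dvd (Nat.pos_of_ne_zero hM0) (hTM hM0)).trans (hMN ⟨p, hp⟩)
  -- exchange
  have hsum : ∑ e ∈ E, Rp y₀ e h ≤ ∑ T ∈ 𝒯, w T * (W.totient * (K : ℝ) ^ T.card *
      ((m : ℝ) / (W * ∏ p ∈ T, p : ℕ) + 1)) := by
    refine (sum_le_sum hexpand).trans ?_
    rw [sum_comm]
    refine sum_le_sum fun T hT => ?_
    rw [← sum_filter, sum_const, nsmul_eq_mul, mul_comm]
    refine mul_le_mul_of_nonneg_left ?_ (hwpos T (hTp T hT))
    exact sa_count y₀ a m h T (hTp T hT)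
  -- the first part
  have hfirst : ∑ T ∈ 𝒯, w T * ((K : ℝ) ^ T.card / (∏ p ∈ T, p : ℕ)) ≤ 1 + η / 2 := by
    refine le_trans ?_ ((sa_prod K y₀ hy1 P hPp).trans hexp)
    rw [prod_one_add]
    have h1 : ∀ T : Finset ℕ, w T * ((K : ℝ) ^ T.card / (∏ p ∈ T, p : ℕ)) =
        ∏ p ∈ T, ((K : ℝ) / ((p : ℝ) * (p - 1))) := by
      intro T
      change (∏ p ∈ T, 1 / ((p : ℝ) - 1)) * _ = _
      rw [← prod_const, Nat.cast_prod, ← prod_div_distrib, ← prod_mul_distrib]
      refine prod_congr rfl fun p _ => ?_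
      rw [div_mul_div_comm, one_mul, mul_comm ((p : ℝ) - 1)]
    rw [sum_congr rfl fun T _ => h1 T]
    refine sum_le_sum_of_subset_of_nonneg (filter_subset _ _) fun T hT _ => ?_
    refine prod_nonneg fun p hp => ?_
    have h2 : (1 : ℝ) < p := by
      exact_mod_cast (hPp p ((mem_powerset.1 hT) hp)).1.one_lt
    have h3 : 0 < (p : ℝ) - 1 := by linarith
    positivity
  -- the second part
  have hsecond : ∑ T ∈ 𝒯, w T * (K : ℝ) ^ T.card ≤
      C * (((K : ℝ) + 1) ^ B * Real.log (20 * L) ^ B) := by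
    have h1 : ∑ T ∈ 𝒯, w T * (K : ℝ) ^ T.card =
        ∑ d ∈ 𝒯.image fun T => ∏ p ∈ T, p, (K : ℝ) ^ om d / (d.totient : ℝ) := by
      rw [sum_image]
      · refine sum_congr rfl fun T hT => ?_
        have h2 : (∏ p ∈ T, p).primeFactors = T :=
          Nat.primeFactors_prod fun p hp => (hTp T hT p hp).1
        have h3 : om (∏ p ∈ T, p) = T.card := by
          unfold om
          rw [h2]
        have h4 : ((∏ p ∈ T, p).totient : ℝ) = ∏ p ∈ T, ((p : ℝ) - 1) := by
          rw [sa_tot T fun p hp => (hTp T hT p hp).1, Nat.cast_prod]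
          refine prod_congr rfl fun p hp => ?_
          rw [Nat.cast_sub (hTp T hT p hp).1.one_lt.le, Nat.cast_one]
        rw [h3, h4]
        change (∏ p ∈ T, 1 / ((p : ℝ) - 1)) * _ = _
        rw [prod_div_distrib, prod_const_one]
        ring
      · intro T hT T' hT' hTT
        have h2 : (∏ p ∈ T, p).primeFactors = T :=
          Nat.primeFactors_prod fun p hp => (hTp T hT p hp).1
        have h3 : (∏ p ∈ T', p).primeFactors = T' :=
          Nat.primeFactors_prod fun p hp => (hTp T' hT' p hp).1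
        have h4 : ∏ p ∈ T, p = ∏ p ∈ T', p := hTT
        rw [← h2, ← h3, h4]
    rw [h1]
    have h5 : ∑ d ∈ 𝒯.image (fun T => ∏ p ∈ T, p), (K : ℝ) ^ om d / (d.totient : ℝ) ≤
        ∑ d ∈ Icc 1 N, (K : ℝ) ^ om d / (d.totient : ℝ) := by
      refine sum_le_sum_of_subset_of_nonneg ?_ fun d _ _ => by positivity
      intro d hd
      rw [mem_image] at hd
      obtain ⟨T, hT, rfl⟩ := hd
      rw [mem_Icc]
      refine ⟨?_, (mem_filter.1 hT).2⟩
      exact Nat.succ_le_of_lt (prod_pos fun p hp => (hTp T hT p hp).1.pos)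
    refine h5.trans ((hCB N hN2).trans ?_)
    refine mul_le_mul_of_nonneg_left ?_ hC.le
    rw [← mul_pow]
    exact pow_le_pow_left₀ (Real.log_nonneg (by exact_mod_cast (by omega : 1 ≤ N))) hNlog B
  -- conclusion
  have htot : (0 : ℝ) ≤ W.totient := Nat.cast_nonneg _
  have hm0 : (0 : ℝ) ≤ m := Nat.cast_nonneg _
  have hsplit : ∑ T ∈ 𝒯, w T * (W.totient * (K : ℝ) ^ T.card *
      ((m : ℝ) / (W * ∏ p ∈ T, p : ℕ) + 1)) =
      (W.totient / W * m) * ∑ T ∈ 𝒯, w T * ((K : ℝ) ^ T.card / (∏ p ∈ T, p : ℕ)) +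
      W.totient * ∑ T ∈ 𝒯, w T * (K : ℝ) ^ T.card := by
    rw [mul_sum, mul_sum, ← sum_add_distrib]
    refine sum_congr rfl fun T hT => ?_
    have h1 : ((∏ p ∈ T, p : ℕ) : ℝ) ≠ 0 := by
      have : ∏ p ∈ T, p ≠ 0 := prod_ne_zero_iff.2 fun p hp => (hTp T hT p hp).1.ne_zero
      exact_mod_cast this
    rw [Nat.cast_mul]
    field_simp
  rw [hsplit] at hsum
  refine hsum.trans ?_
  have hA : (W.totient / W * m) * ∑ T ∈ 𝒯, w T * ((K : ℝ) ^ T.card / (∏ p ∈ T, p : ℕ)) ≤
      (W.totient / W * m) * (1 + η / 2) :=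
    mul_le_mul_of_nonneg_left hfirst (by positivity)
  have hB : (W.totient : ℝ) * ∑ T ∈ 𝒯, w T * (K : ℝ) ^ T.card ≤
      (W.totient / W * m) * (η / 2) := by
    have h1 := hL₀ L hL0
    have h2 : (W : ℝ) * (C * ((K : ℝ) + 1) ^ B) * (2 / η) / t * Real.log (20 * L) ^ B =
        (W : ℝ) * (C * (((K : ℝ) + 1) ^ B * Real.log (20 * L) ^ B)) * (2 / η) / t := by ring
    rw [h2, div_le_iff₀ ht] at h1
    have h3 : (W : ℝ) * (C * (((K : ℝ) + 1) ^ B * Real.log (20 * L) ^ B)) * (2 / η) ≤ m := by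
      linarith
    have h4 : (W : ℝ) * (∑ T ∈ 𝒯, w T * (K : ℝ) ^ T.card) * (2 / η) ≤ m := by
      refine le_trans (mul_le_mul_of_nonneg_right ?_ (by positivity)) h3
      exact mul_le_mul_of_nonneg_left hsecond hWr.le
    have h5 : (∑ T ∈ 𝒯, w T * (K : ℝ) ^ T.card) ≤ m / W * (η / 2) := by
      rw [div_mul_eq_mul_div, le_div_iff₀ hWr]
      have h6 : (W : ℝ) * (∑ T ∈ 𝒯, w T * (K : ℝ) ^ T.card) * (2 / η) * (η / 2) =
          (∑ T ∈ 𝒯, w T * (K : ℝ) ^ T.card) * W := by
        field_simp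
      rw [← h6]
      exact mul_le_mul_of_nonneg_right h4 (by positivity)
    calc (W.totient : ℝ) * ∑ T ∈ 𝒯, w T * (K : ℝ) ^ T.card ≤ W.totient * (m / W * (η / 2)) :=
          mul_le_mul_of_nonneg_left h5 htot
      _ = (W.totient / W * m) * (η / 2) := by ring
  calc _ ≤ (W.totient / W * m) * (1 + η / 2) + (W.totient / W * m) * (η / 2) := add_le_add hA hB
    _ = (1 + η) * ((W.totient : ℝ) / W) * m := by ring

end Pool.Agent.H20.MP
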