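import Pool.Agent.H31.MP.Basic

/-!
Row W2 of mtp_modules (helper20): one prime.
-/

set_option autoImplicit false

open Finset Real ArithmeticFunction
open scoped Nat

namespace Pool.Agent.H20.MP

open Pool.Agent.H31.MP
open Pool.Agent.H27.LS (hat)
open Pool.Agent.H30.BV (NX wx WX SC Sf)

theorem w2_wx_nonneg (X : ℝ) (n : ℕ) : 0 ≤ wx X n := by
  unfold wx
  exact mul_nonneg vonMangoldt_nonneg (Pool.Agent.H27.LS.hat_nonneg _)

theorem w2_wx_le (X : ℝ) (n : ℕ) : wx X n ≤ Λ n := by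
  unfold wx
  exact mul_le_of_le_one_right vonMangoldt_nonneg (Pool.Agent.H27.LS.hat_le_one _)

/-- the support of the weight -/
theorem w2_supp {X : ℝ} (hX : 0 < X) {n : ℕ} (h : wx X n ≠ 0) :
    X / 3 < n ∧ (n : ℝ) < 3 * X := by
  have h1 : hat (Real.log (n / X)) ≠ 0 := by
    intro h0
    apply h
    unfold wx
    rw [h0, mul_zero]
  have h2 : |Real.log (n / X)| < 1 := by
    by_contra hc
    exact h1 (Pool.Agent.H27.LS.hat_eq_zero (not_lt.1 hc))
  have hn : n ≠ 0 := by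
    rintro rfl
    apply h
    unfold wx
    simp
  have hn0 : (0 : ℝ) < n := by exact_mod_cast Nat.pos_of_ne_zero hn
  have hq : (0 : ℝ) < n / X := div_pos hn0 hX
  have h3 := (abs_lt.1 h2)
  have he : Real.exp 1 < 3 := Real.exp_one_lt_d9.trans (by norm_num)
  have h4 : (n : ℝ) / X < Real.exp 1 := by
    rw [← Real.exp_log hq]
    exact Real.exp_lt_exp.2 h3.2
  have h5 : Real.exp (-1) < (n : ℝ) / X := by
    rw [← Real.exp_log hq]
    exact Real.exp_lt_exp.2 h3.1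
  constructor
  · have h6 : 1 / 3 < Real.exp (-1) := by
      rw [Real.exp_neg, one_div]
      exact inv_strictAnti₀ (Real.exp_pos 1) he
    have h7 : 1 / 3 < (n : ℝ) / X := h6.trans h5
    rw [lt_div_iff₀ hX] at h7
    linarith
  · have h7 : (n : ℝ) / X < 3 := h4.trans he
    rwa [div_lt_iff₀ hX] at h7

theorem w2_wt {K : ℕ} {z Y C : ℝ} {l : (Fin K → ℕ) → ℝ} (hl : Wt K z Y C l) (hC : 0 ≤ C)
    (i : Fin K) : Wt K z Y C (res i l) where
  supp := by
    intro d hd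
    refine hl.supp d ?_
    intro h0
    apply hd
    unfold res
    by_cases h : d i = 1
    · rw [if_pos h, h0]
    · rw [if_neg h]
  bd := by
    intro d
    unfold res
    by_cases h : d i = 1
    · rw [if_pos h]
      exact hl.bd d
    · rw [if_neg h, abs_zero]
      exact hC

/-- for a prime `n + h i > Y` only the tuples with `d i = 1` contribute -/
theorem w2_lam {K : ℕ} {z Y C : ℝ} {l : (Fin K → ℕ) → ℝ} (hl : Wt K z Y C l) (h : Fin K → ℕ)
    (i : Fin K) {n : ℕ} (hp : (n + h i).Prime) (hY : Y < (n + h i : ℕ)) :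
    Lam z Y l h n = Lam z Y (res i l) h n := by
  classical
  unfold Lam
  refine Finset.sum_congr rfl fun d hd => ?_
  by_cases hdv : ∀ j, d j ∣ n + h j
  · rw [if_pos hdv, if_pos hdv]
    unfold res
    by_cases h1 : d i = 1
    · rw [if_pos h1]
    · rw [if_neg h1]
      by_contra hne
      have hpr := (hl.supp d hne).2
      have h2 : d i = n + h i := ((Nat.dvd_prime hp).1 (hdv i)).resolve_left h1
      have h3 : d i ≤ ∏ j, d j := by
        refine Nat.le_of_dvd (Nat.pos_of_ne_zero ?_) (dvd_prod_of_mem d (mem_univ i))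
        refine prod_ne_zero_iff.2 fun j _ => ?_
        have h4 := hdv
        unfold Bx at hd
        have h5 := (Fintype.mem_piFinset.1 hd) j
        unfold RS at h5
        have h6 := (mem_Icc.1 (mem_filter.1 h5).1).1
        omega
      have h4 : ((d i : ℕ) : ℝ) ≤ ((∏ j, d j : ℕ) : ℝ) := by exact_mod_cast h3
      rw [h2] at h4
      linarith
  · rw [if_neg hdv, if_neg hdv]

theorem w2_V2 {K : ℕ} (y₀ : ℕ) (z : ℝ) (h : Fin K → ℕ) : 0 ≤ V2 y₀ z h := by
  classical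
  unfold V2
  refine prod_nonneg fun p hp => ?_
  unfold Pz at hp
  have hp1 := (mem_filter.1 hp).2
  have h1 : nu h p ≤ p := by
    unfold nu
    refine (card_filter_le _ _).trans ?_
    rw [card_range]
  have h2 : (nu h p : ℝ) ≤ p := by exact_mod_cast h1
  have h3 : (1 : ℝ) < p := by
    have : 1 < p := hp1.1.one_lt
    exact_mod_cast this
  have h4 : 0 < (p : ℝ) - 1 := by linarith
  rw [sub_nonneg, div_le_one h4]
  linarith

theorem w2_QF (hDG : T_DG) {K : ℕ} (z Y : ℝ) (l : (Fin K → ℕ) → ℝ) : 0 ≤ QF z Y l := by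
  rw [hDG K z Y l]
  exact sum_nonneg fun r _ => mul_nonneg (prod_nonneg fun i _ => Nat.cast_nonneg _) (sq_nonneg _)

theorem w2_log (A : ℕ) (c : ℝ) : ∃ X₀ : ℝ, ∀ Z : ℝ, X₀ ≤ Z →
    c * Real.log Z ^ A ≤ Real.sqrt Z := by
  have h := (isLittleO_pow_log_id_atTop (n := 2 * A)).bound
    (show 0 < (1 / (|c| + 1)) ^ 2 by positivity)
  obtain ⟨X₁, hX₁⟩ := Filter.eventually_atTop.1 h
  refine ⟨max X₁ 1, fun Z hZ => ?_⟩
  have h1 := hX₁ Z ((le_max_left _ _).trans hZ)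
  have hZ1 : 1 ≤ Z := (le_max_right _ _).trans hZ
  have hl : 0 ≤ Real.log Z := Real.log_nonneg hZ1
  rw [id, Real.norm_of_nonneg (pow_nonneg hl _), Real.norm_of_nonneg (by linarith)] at h1
  have hc : 0 < |c| + 1 := by positivity
  have h2 : ((|c| + 1) * Real.log Z ^ A) ^ 2 ≤ Z := by
    have h3 : ((|c| + 1) * Real.log Z ^ A) ^ 2 = (|c| + 1) ^ 2 * Real.log Z ^ (2 * A) := by
      rw [mul_pow, ← pow_mul, mul_comm A 2]
    rw [h3]
    calc (|c| + 1) ^ 2 * Real.log Z ^ (2 * A) ≤ (|c| + 1) ^ 2 * ((1 / (|c| + 1)) ^ 2 * Z) :=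
          mul_le_mul_of_nonneg_left h1 (sq_nonneg _)
      _ = Z := by
          field_simp
  have h4 : (|c| + 1) * Real.log Z ^ A ≤ Real.sqrt Z := Real.le_sqrt_of_sq_le h2
  refine le_trans (mul_le_mul_of_nonneg_right ?_ (pow_nonneg hl _)) h4
  linarith [le_abs_self c]

theorem pf_W2 (hPU : T_PU) (hPT : T_PT) (hDG : T_DG) : T_W2 := by
  classical
  intro k η hk hη
  obtain ⟨b, hb⟩ := hPU k η hk hη
  refine ⟨b, fun y₀ A δ C hy hδ hδb hC => ?_⟩
  obtain ⟨X₁, hX₁⟩ := hb y₀ A δ (1 / 4) C (by omega) hδ (by norm_num) (by linarith) hC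
  obtain ⟨C', X₂, hC', hX₂⟩ := hPT k δ C hδ hC
  obtain ⟨X₃, hX₃⟩ := w2_log A (16 * C' ^ 2)
  refine ⟨max (max X₁ X₂) (max X₃ (Real.exp 2 + 10)), ?_⟩
  intro Z hZ Y h i l hinj hh hprim hY1 hYZ hl
  have hZ1 : X₁ ≤ Z := (le_max_left _ _).trans ((le_max_left _ _).trans hZ)
  have hZ2 : X₂ ≤ Z := (le_max_right _ _).trans ((le_max_left _ _).trans hZ)
  have hZ3 : X₃ ≤ Z := (le_max_left _ _).trans ((le_max_right _ _).trans hZ)
  have hZ4 : Real.exp 2 + 10 ≤ Z := (le_max_right _ _).trans ((le_max_right _ _).trans hZ)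
  have hZ10 : 10 ≤ Z := by linarith [Real.exp_pos 2]
  have hZ0 : 0 < Z := by linarith
  have hlog2 : 2 ≤ Real.log Z := by
    rw [Real.le_log_iff_exp_le hZ0]
    linarith
  have hlog0 : 0 < Real.log Z := by linarith
  set L := Real.log Z with hL
  set R : (Fin k → ℕ) → ℝ := res i l with hR
  have hRw : Wt k (Z ^ δ) Y C R := w2_wt hl hC i
  have hh20 : ∀ j, (h j : ℝ) ≤ 20 * Real.log Z := fun j => (hh j).trans (by linarith)
  have hY2 : Y ^ 2 ≤ Z ^ (1 / 2 - 1 / 4 : ℝ) := by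
    have h1 : Y ^ 2 ≤ (Z ^ (1 / 8 : ℝ)) ^ 2 := pow_le_pow_left₀ (by linarith) hYZ 2
    refine h1.trans (le_of_eq ?_)
    rw [← Real.rpow_natCast, ← Real.rpow_mul hZ0.le]
    norm_num
  have hYlt : Y < Z / 3 := by
    have h1 : Z ^ (1 / 8 : ℝ) ≤ Z ^ (1 / 2 : ℝ) :=
      Real.rpow_le_rpow_of_exponent_le (by linarith) (by norm_num)
    rw [← Real.sqrt_eq_rpow] at h1
    have h2 : Real.sqrt Z < Z / 3 := by
      rw [Real.sqrt_lt' (by linarith)]
      nlinarith
    linarith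
  have hmain := hX₁ Z hZ1 Y h i R hinj hh20 (hprim i) hY1 hY2 hRw (by
    intro d hd
    by_contra hne
    apply hd
    rw [hR]
    unfold res
    rw [if_neg hne])
  set T : ℝ := ∑ n ∈ Omr Z y₀ (Z ^ δ) h, wx Z (n + h i) * Lam (Z ^ δ) Y R h n ^ 2 with hT
  set Q : ℝ := WX Z / (primorial y₀).totient * V2 y₀ (Z ^ δ) h * QF (Z ^ δ) Y R with hQ
  have hMM : MM Z y₀ (Z ^ δ) Y l h i = Q / L := by
    unfold MM
    rw [hQ, ← div_div]
    ring
  have hQ0 : 0 ≤ Q := by
    rw [hQ]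
    refine mul_nonneg (mul_nonneg (div_nonneg ?_ (Nat.cast_nonneg _)) (w2_V2 _ _ _))
      (w2_QF hDG _ _ _)
    unfold WX
    exact sum_nonneg fun n _ => w2_wx_nonneg _ _
  -- the comparison
  have hterm : ∀ n ∈ Omr Z y₀ (Z ^ δ) h,
      wp Z (n + h i) * Lam (Z ^ δ) Y l h n ^ 2 =
        (if (n + h i).Prime then wx Z (n + h i) * Lam (Z ^ δ) Y R h n ^ 2 else 0) / L := by
    intro n hn
    unfold wp
    by_cases hp : (n + h i).Prime
    · rw [if_pos hp, if_pos hp]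
      by_cases hw : wx Z (n + h i) = 0
      · rw [hw]
        simp
      · have h1 := (w2_supp hZ0 hw).1
        rw [w2_lam hl h i hp (by linarith)]
        ring
    · rw [if_neg hp, if_neg hp]
      simp
  have hS2 : S2 Z y₀ (Z ^ δ) Y l h i =
      (∑ n ∈ Omr Z y₀ (Z ^ δ) h,
        if (n + h i).Prime then wx Z (n + h i) * Lam (Z ^ δ) Y R h n ^ 2 else 0) / L := by
    unfold S2
    rw [sum_congr rfl hterm, sum_div]
  set P : ℝ := ∑ n ∈ Omr Z y₀ (Z ^ δ) h,
    if (n + h i).Prime then wx Z (n + h i) * Lam (Z ^ δ) Y R h n ^ 2 else 0 with hP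
  have hPT1 : P ≤ T := by
    rw [hP, hT]
    refine sum_le_sum fun n _ => ?_
    by_cases hp : (n + h i).Prime
    · rw [if_pos hp]
    · rw [if_neg hp]
      exact mul_nonneg (w2_wx_nonneg _ _) (sq_nonneg _)
  have hdiff : T - P ≤ C' ^ 2 * (2 * Real.sqrt (3 * Z) * Real.log (3 * Z)) := by
    have h1 : T - P = ∑ n ∈ (Omr Z y₀ (Z ^ δ) h).filter (fun n => ¬ (n + h i).Prime),
        wx Z (n + h i) * Lam (Z ^ δ) Y R h n ^ 2 := by
      rw [hT, hP, ← sum_sub_distrib, sum_filter]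
      refine sum_congr rfl fun n _ => ?_
      by_cases hp : (n + h i).Prime
      · rw [if_pos hp, if_neg (not_not.2 hp), sub_self]
      · rw [if_neg hp, if_pos hp, sub_zero]
    rw [h1]
    have h2 : ∑ n ∈ (Omr Z y₀ (Z ^ δ) h).filter (fun n => ¬ (n + h i).Prime),
        wx Z (n + h i) * Lam (Z ^ δ) Y R h n ^ 2 ≤
        ∑ n ∈ (Omr Z y₀ (Z ^ δ) h).filter (fun n => ¬ (n + h i).Prime),
          C' ^ 2 * wx Z (n + h i) := by
      refine sum_le_sum fun n hn => ?_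
      have hn1 := (mem_filter.1 hn).1
      unfold Omr Om at hn1
      have hn2 := mem_Icc.1 (mem_filter.1 (mem_filter.1 hn1).1).1
      have h3 := hX₂ Z hZ2 Y h R n hRw hh20 hn2.1 hn2.2
      have h4 : Lam (Z ^ δ) Y R h n ^ 2 ≤ C' ^ 2 := sq_le_sq' (by linarith [(abs_le.1 h3).1])
        (abs_le.1 h3).2
      rw [mul_comm]
      exact mul_le_mul_of_nonneg_right h4 (w2_wx_nonneg _ _)
    refine h2.trans ?_
    rw [← mul_sum]
    refine mul_le_mul_of_nonneg_left ?_ (sq_nonneg _)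
    have h5 : ∑ n ∈ (Omr Z y₀ (Z ^ δ) h).filter (fun n => ¬ (n + h i).Prime), wx Z (n + h i) =
        ∑ n ∈ (Omr Z y₀ (Z ^ δ) h).filter (fun n => ¬ (n + h i).Prime ∧ wx Z (n + h i) ≠ 0),
          wx Z (n + h i) := by
      rw [← filter_filter]
      exact (sum_filter_ne_zero _).symm
    rw [h5]
    have h6 : ∑ n ∈ (Omr Z y₀ (Z ^ δ) h).filter (fun n => ¬ (n + h i).Prime ∧ wx Z (n + h i) ≠ 0),
          wx Z (n + h i) =
        ∑ m ∈ ((Omr Z y₀ (Z ^ δ) h).filter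
          (fun n => ¬ (n + h i).Prime ∧ wx Z (n + h i) ≠ 0)).image (fun n => n + h i), wx Z m := by
      rw [sum_image]
      intro a _ c _ hac
      exact Nat.add_right_cancel hac
    rw [h6]
    have h7 : ∑ m ∈ ((Omr Z y₀ (Z ^ δ) h).filter
          (fun n => ¬ (n + h i).Prime ∧ wx Z (n + h i) ≠ 0)).image (fun n => n + h i), wx Z m ≤
        ∑ m ∈ (Ioc 0 ⌊3 * Z⌋₊).filter (fun m => ¬ m.Prime), Λ m := by
      refine (sum_le_sum fun m _ => w2_wx_le Z m).trans ?_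
      refine sum_le_sum_of_subset_of_nonneg ?_ fun m _ _ => vonMangoldt_nonneg
      intro m hm
      rw [mem_image] at hm
      obtain ⟨n, hn, rfl⟩ := hm
      rw [mem_filter] at hn
      obtain ⟨hn1, hn2, hn3⟩ := hn
      have h8 := w2_supp hZ0 hn3
      rw [mem_filter, mem_Ioc]
      refine ⟨⟨?_, Nat.le_floor h8.2.le⟩, hn2⟩
      have h9 : (0 : ℝ) < (n + h i : ℕ) := by linarith [h8.1]
      exact_mod_cast h9
    refine h7.trans ?_
    rw [← Chebyshev.psi_sub_theta_eq_sum_not_prime]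
    exact Chebyshev.psi_sub_theta_le (by linarith)
  have herr : C' ^ 2 * (2 * Real.sqrt (3 * Z) * Real.log (3 * Z)) / L ≤ Z / L ^ A / 2 := by
    have h1 : Real.sqrt (3 * Z) ≤ 2 * Real.sqrt Z := by
      refine Real.sqrt_le_iff.2 ⟨by positivity, ?_⟩
      rw [mul_pow, Real.sq_sqrt hZ0.le]
      linarith
    have h2 : Real.log (3 * Z) ≤ 2 * L := by
      rw [Real.log_mul (by norm_num) hZ0.ne']
      have : Real.log 3 ≤ Real.log Z := Real.log_le_log (by norm_num) (by linarith)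
      linarith
    have h3 : 2 * Real.sqrt (3 * Z) * Real.log (3 * Z) ≤ 2 * (2 * Real.sqrt Z) * (2 * L) := by
      have hl3 : 0 ≤ Real.log (3 * Z) := Real.log_nonneg (by linarith)
      have hs : 0 ≤ Real.sqrt Z := Real.sqrt_nonneg _
      exact mul_le_mul (by linarith) h2 hl3 (by positivity)
    have h4 : C' ^ 2 * (2 * Real.sqrt (3 * Z) * Real.log (3 * Z)) / L ≤
        8 * C' ^ 2 * Real.sqrt Z := by
      rw [div_le_iff₀ hlog0]
      calc C' ^ 2 * (2 * Real.sqrt (3 * Z) * Real.log (3 * Z)) ≤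
            C' ^ 2 * (2 * (2 * Real.sqrt Z) * (2 * L)) :=
            mul_le_mul_of_nonneg_left h3 (sq_nonneg _)
        _ = 8 * C' ^ 2 * Real.sqrt Z * L := by ring
    refine h4.trans ?_
    have h5 := hX₃ Z hZ3
    rw [le_div_iff₀ (by norm_num : (0 : ℝ) < 2), le_div_iff₀ (pow_pos hlog0 A)]
    calc 8 * C' ^ 2 * Real.sqrt Z * 2 * L ^ A = (16 * C' ^ 2 * L ^ A) * Real.sqrt Z := by ring
      _ ≤ Real.sqrt Z * Real.sqrt Z := mul_le_mul_of_nonneg_right h5 (Real.sqrt_nonneg _)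
      _ = Z := Real.mul_self_sqrt hZ0.le
  have hhalf : Z / L ^ A / L ≤ Z / L ^ A / 2 :=
    div_le_div_of_nonneg_left (div_nonneg hZ0.le (pow_nonneg hlog0.le _)) (by norm_num) hlog2
  obtain ⟨hlow, hup⟩ := hmain
  rw [hMM, hS2]
  refine ⟨?_, ?_, div_nonneg hQ0 hlog0.le⟩
  · have h1 : ((1 - η) * Q - Z / L ^ A) / L ≤ T / L := div_le_div_of_nonneg_right hlow hlog0.le
    have h2 : T / L - P / L ≤ Z / L ^ A / 2 := by
      rw [← sub_div]
      exact (div_le_div_of_nonneg_right hdiff hlog0.le).trans herr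
    have h3 : ((1 - η) * Q - Z / L ^ A) / L = (1 - η) * (Q / L) - Z / L ^ A / L := by
      rw [sub_div, mul_div_assoc]
    rw [h3] at h1
    linarith
  · have h1 : P / L ≤ ((1 + η) * Q + Z / L ^ A) / L :=
      div_le_div_of_nonneg_right (hPT1.trans hup) hlog0.le
    have h3 : ((1 + η) * Q + Z / L ^ A) / L = (1 + η) * (Q / L) + Z / L ^ A / L := by
      rw [add_div, mul_div_assoc]
    rw [h3] at h1
    have h4 : 0 ≤ Z / L ^ A := div_nonneg hZ0.le (pow_nonneg hlog0.le _)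
    linarith

end Pool.Agent.H20.MP
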